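import Pool.Agent.MTN.Stmts

/-!
# MTN, row AMP: amplification

`Bsp K G e` is the `K`-span of the monomials of multidegree `(e, ..., e)` as functions on `G`.
Multiplication by a relation at `A0` embeds `Bsp e` into the functions of `Bsp (e + k)` which vanish at
`A0`; the dimensions of `Bsp e` grow exponentially, but they are bounded by a polynomial in `e`.
-/

set_option autoImplicit false

namespace Pool.Agent.MTN.H38

open Matrix Pool.Agent.MTN

set_option linter.unusedSectionVars false

section
variable {ι d : Type} [Fintype ι] [DecidableEq ι] [Fintype d] [DecidableEq d]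

/-- the monomial with the index `(β, α)` as a function on `G` -/
noncomputable def mo (G : Set (ι → Matrix d d ℂ)) (e : ℕ)
    (x : (ι × Fin e → d) × (ι × Fin e → d)) : G → ℂ :=
  fun A => ∏ s : ι × Fin e, (A : ι → Matrix d d ℂ) s.1 (x.1 s) (x.2 s)

/-- the functions of degree `e` -/
noncomputable def Bsp (K : IntermediateField ℚ ℂ) (G : Set (ι → Matrix d d ℂ)) (e : ℕ) :
    Submodule K (G → ℂ) :=
  Submodule.span K (Set.range (mo G e))

theorem mo_mul (G : Set (ι → Matrix d d ℂ)) (e k : ℕ)
    (x : (ι × Fin e → d) × (ι × Fin e → d)) (y : (ι × Fin k → d) × (ι × Fin k → d)) :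
    mo G e x * mo G k y = mo G (e + k)
      (fun s => Fin.append (fun j => x.1 (s.1, j)) (fun j => y.1 (s.1, j)) s.2,
       fun s => Fin.append (fun j => x.2 (s.1, j)) (fun j => y.2 (s.1, j)) s.2) := by
  funext A
  simp only [mo, Pi.mul_apply]
  rw [Fintype.prod_prod_type, Fintype.prod_prod_type, Fintype.prod_prod_type,
    ← Finset.prod_mul_distrib]
  refine Finset.prod_congr rfl fun i _ => ?_
  rw [Fin.prod_univ_add]
  simp [Fin.append_left, Fin.append_right]

theorem mul_mem (K : IntermediateField ℚ ℂ) (G : Set (ι → Matrix d d ℂ)) {e k : ℕ}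
    {f g : G → ℂ} (hf : f ∈ Bsp K G e) (hg : g ∈ Bsp K G k) : f * g ∈ Bsp K G (e + k) := by
  have h := Submodule.mul_mem_mul hf hg
  rw [Bsp, Bsp, Submodule.span_mul_span] at h
  refine Submodule.span_mono ?_ h
  rintro _ ⟨_, ⟨x, rfl⟩, _, ⟨y, rfl⟩, rfl⟩
  exact ⟨_, (mo_mul G e k x y).symm⟩

/-- the linear map from the coefficients to the functions -/
noncomputable def TT (K : IntermediateField ℚ ℂ) (G : Set (ι → Matrix d d ℂ)) (e : ℕ) :
    ((ι × Fin e → d) × (ι × Fin e → d) → K) →ₗ[K] (G → ℂ) :=
  Fintype.linearCombination K (mo G e)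

theorem TT_apply (K : IntermediateField ℚ ℂ) (G : Set (ι → Matrix d d ℂ)) (e : ℕ)
    (c : (ι × Fin e → d) × (ι × Fin e → d) → K) (A : G) :
    TT K G e c A = tf (fun β α => (c (β, α) : ℂ)) A := by
  rw [TT, Fintype.linearCombination_apply, tf, Finset.sum_apply, Fintype.sum_prod_type]
  refine Finset.sum_congr rfl fun β _ => Finset.sum_congr rfl fun α _ => ?_
  rw [Pi.smul_apply]
  rfl

theorem range_TT (K : IntermediateField ℚ ℂ) (G : Set (ι → Matrix d d ℂ)) (e : ℕ) :
    LinearMap.range (TT K G e) = Bsp K G e := by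
  rw [TT, Fintype.range_linearCombination, Bsp]

/-- the functions are values of polynomials -/
theorem exists_poly (K : IntermediateField ℚ ℂ) (G : Set (ι → Matrix d d ℂ)) {e : ℕ} {f : G → ℂ}
    (hf : f ∈ Bsp K G e) : ∃ p : MvPolynomial (ι × d × d) ℂ, ∀ A : G, pv (A : ι → Matrix d d ℂ) p = f A := by
  rw [← range_TT] at hf
  obtain ⟨c, rfl⟩ := hf
  refine ⟨∑ β, ∑ α, MvPolynomial.C (c (β, α) : ℂ) *
    ∏ s : ι × Fin e, MvPolynomial.X (s.1, β s, α s), fun A => ?_⟩
  rw [TT_apply, pv, tf]
  simp [map_sum, map_prod]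

/-- no zero divisors -/
theorem no_zero (K : IntermediateField ℚ ℂ) (G : Set (ι → Matrix d d ℂ))
    (hG : ∀ p q : MvPolynomial (ι × d × d) ℂ, (∃ A ∈ G, pv A p ≠ 0) → (∃ A ∈ G, pv A q ≠ 0) →
      ∃ A ∈ G, pv A (p * q) ≠ 0) {e k : ℕ} {f g : G → ℂ} (hf : f ∈ Bsp K G e) (hg : g ∈ Bsp K G k)
    (h : f * g = 0) (hg0 : g ≠ 0) : f = 0 := by
  by_contra hf0
  obtain ⟨p, hp⟩ := exists_poly K G hf
  obtain ⟨q, hq⟩ := exists_poly K G hg
  obtain ⟨A, hA⟩ := Function.ne_iff.mp hf0
  obtain ⟨B, hB⟩ := Function.ne_iff.mp hg0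
  obtain ⟨C, hC, hne⟩ := hG p q ⟨A, A.2, by rw [hp]; exact hA⟩ ⟨B, B.2, by rw [hq]; exact hB⟩
  apply hne
  have h1 : pv C (p * q) = pv C p * pv C q := by simp [pv]
  rw [h1, hp ⟨C, hC⟩, hq ⟨C, hC⟩]
  exact congrFun h ⟨C, hC⟩

/-- the number of monomials -/
theorem finrank_le (K : IntermediateField ℚ ℂ) (G : Set (ι → Matrix d d ℂ)) (e : ℕ) :
    Module.finrank K (Bsp K G e) ≤ (e + 1) ^ Fintype.card (ι × d × d) := by
  classical
  have h1 : Set.range (mo G e) ⊆ Set.range (fun (m : ι × d × d → Fin (e + 1)) => (fun A : G =>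
      ∏ x : ι × d × d, ((A : ι → Matrix d d ℂ) x.1 x.2.1 x.2.2) ^ (m x : ℕ))) := by
    rintro _ ⟨⟨β, α⟩, rfl⟩
    have hc : ∀ x : ι × d × d, (Finset.univ.filter
        fun s : ι × Fin e => (s.1, β s, α s) = x).card < e + 1 := by
      intro x
      rw [Nat.lt_succ_iff]
      calc (Finset.univ.filter fun s : ι × Fin e => (s.1, β s, α s) = x).card
          ≤ (Finset.univ : Finset (Fin e)).card := by
            refine Finset.card_le_card_of_injOn (fun s => s.2) (fun _ _ => Finset.mem_univ _) ?_
            intro s hs t ht hst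
            simp only [Finset.coe_filter, Finset.mem_univ, true_and, Set.mem_ofPred_eq] at hs ht
            have h2 : s.1 = t.1 := by
              have := congrArg Prod.fst (hs.trans ht.symm)
              exact this
            exact Prod.ext h2 hst
        _ = e := by simp
    refine ⟨fun x => ⟨_, hc x⟩, ?_⟩
    funext A
    simp only [mo]
    rw [← Finset.prod_fiberwise_of_maps_to (t := (Finset.univ : Finset (ι × d × d)))
      (g := fun s : ι × Fin e => (s.1, β s, α s)) (fun _ _ => Finset.mem_univ _)]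
    refine Finset.prod_congr rfl fun x _ => ?_
    rw [Finset.prod_congr rfl (g := fun _ => (A : ι → Matrix d d ℂ) x.1 x.2.1 x.2.2)]
    · rw [Finset.prod_const]
    · intro s hs
      rw [Finset.mem_filter] at hs
      rw [← hs.2]
  calc Module.finrank K (Bsp K G e) ≤ Module.finrank K (Submodule.span K (Set.range
        (fun (m : ι × d × d → Fin (e + 1)) => (fun A : G =>
      ∏ x : ι × d × d, ((A : ι → Matrix d d ℂ) x.1 x.2.1 x.2.2) ^ (m x : ℕ))))) := by
        have : Module.Finite K (Submodule.span K (Set.range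
          (fun (m : ι × d × d → Fin (e + 1)) => (fun A : G =>
          ∏ x : ι × d × d, ((A : ι → Matrix d d ℂ) x.1 x.2.1 x.2.2) ^ (m x : ℕ))))) :=
          Module.Finite.span_of_finite K (Set.finite_range _)
        exact Submodule.finrank_mono (Submodule.span_mono h1)
    _ ≤ Fintype.card (ι × d × d → Fin (e + 1)) := finrank_range_le_card _
    _ = (e + 1) ^ Fintype.card (ι × d × d) := by
        rw [Fintype.card_fun, Fintype.card_fin]

instance finite_Bsp (K : IntermediateField ℚ ℂ) (G : Set (ι → Matrix d d ℂ)) (e : ℕ) :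
    Module.Finite K (Bsp K G e) :=
  Module.Finite.span_of_finite K (Set.finite_range _)

end

/-- polynomial growth against exponential decay -/
theorem exists_J (r : ℝ) (hr0 : 0 ≤ r) (hr1 : r < 1) (S k : ℕ) :
    ∃ J : ℕ, r ^ J * ((J * k + 1 : ℕ) : ℝ) ^ S < 1 := by
  have h1 : Filter.Tendsto (fun n : ℕ => (n : ℝ) ^ S * r ^ n) Filter.atTop (nhds 0) :=
    tendsto_pow_const_mul_const_pow_of_abs_lt_one S (by rw [abs_of_nonneg hr0]; exact hr1)
  have h2 : (0 : ℝ) < (((k : ℝ) + 1) ^ S)⁻¹ := by positivity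
  obtain ⟨J, hJ1, hJ2⟩ := ((h1.eventually (gt_mem_nhds h2)).and
    (Filter.eventually_ge_atTop 1)).exists
  refine ⟨J, ?_⟩
  have h3 : (((J * k + 1 : ℕ) : ℝ)) ^ S ≤ ((J : ℝ) * (k + 1)) ^ S := by
    refine pow_le_pow_left₀ (by positivity) ?_ S
    push_cast
    have : (1 : ℝ) ≤ J := by exact_mod_cast hJ2
    nlinarith
  calc r ^ J * ((J * k + 1 : ℕ) : ℝ) ^ S ≤ r ^ J * ((J : ℝ) * (k + 1)) ^ S :=
        mul_le_mul_of_nonneg_left h3 (by positivity)
    _ = ((J : ℝ) ^ S * r ^ J) * ((k : ℝ) + 1) ^ S := by rw [mul_pow]; ring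
    _ < (((k : ℝ) + 1) ^ S)⁻¹ * ((k : ℝ) + 1) ^ S := mul_lt_mul_of_pos_right hJ1 (by positivity)
    _ = 1 := inv_mul_cancel₀ (by positivity)

theorem amp : AmpStmt := by
  intro ι d _ _ _ _ η k hη
  obtain ⟨J, hJ⟩ := exists_J (max (1 - η) 0) (le_max_right _ _)
    (max_lt (by linarith) one_pos) (Fintype.card (ι × d × d)) k
  refine ⟨J * k, fun K G A0 hA0 hdom hyp c hc => ?_⟩
  by_contra hne
  push Not at hne
  -- the function of the relation
  set P : G → ℂ := TT K G k (fun x => c x.1 x.2) with hP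
  have hPm : P ∈ Bsp K G k := by
    rw [← range_TT]
    exact LinearMap.mem_range_self _ _
  have hP0 : P ⟨A0, hA0⟩ = 0 := by
    rw [hP, TT_apply]
    exact hc
  have hPne : P ≠ 0 := by
    obtain ⟨A, hA, hA'⟩ := hne
    intro h
    apply hA'
    have := congrFun h ⟨A, hA⟩
    rw [hP, TT_apply] at this
    exact this
  -- the evaluation at `A0`
  let ev : (G → ℂ) →ₗ[K] ℂ := LinearMap.proj (⟨A0, hA0⟩ : G)
  have hstep : ∀ e, e ≤ J * k → η * (Module.finrank K (Bsp K G e) : ℝ) ≤
      Module.finrank K (Submodule.map ev (Bsp K G e)) := by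
    intro e he
    have h := hyp e he (LinearMap.ker (ev ∘ₗ TT K G e)) (LinearMap.ker (TT K G e)) ?_ ?_
    · have r1 := LinearMap.finrank_range_add_finrank_ker (TT K G e)
      have r2 := LinearMap.finrank_range_add_finrank_ker (ev ∘ₗ TT K G e)
      rw [range_TT] at r1
      rw [LinearMap.range_comp, range_TT] at r2
      rw [Module.finrank_fintype_fun_eq_card] at r1 r2
      have r1' : (Module.finrank K (Bsp K G e) : ℝ) + Module.finrank K (LinearMap.ker (TT K G e)) =
          Fintype.card ((ι × Fin e → d) × (ι × Fin e → d)) := by exact_mod_cast r1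
      have r2' : (Module.finrank K (Submodule.map ev (Bsp K G e)) : ℝ) +
          Module.finrank K (LinearMap.ker (ev ∘ₗ TT K G e)) =
          Fintype.card ((ι × Fin e → d) × (ι × Fin e → d)) := by exact_mod_cast r2
      rw [← r1'] at h
      have h3 : (Module.finrank K (Bsp K G e) : ℝ) + Module.finrank K (LinearMap.ker (TT K G e)) -
        Module.finrank K (LinearMap.ker (TT K G e)) = Module.finrank K (Bsp K G e) := by ring
      rw [h3] at h
      linarith
    · intro c
      rw [LinearMap.mem_ker, LinearMap.comp_apply]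
      change TT K G e c ⟨A0, hA0⟩ = 0 ↔ _
      rw [TT_apply]
    · intro c
      rw [LinearMap.mem_ker, funext_iff]
      constructor
      · intro h A hA
        have := h ⟨A, hA⟩
        rw [TT_apply] at this
        exact this
      · intro h A
        rw [TT_apply]
        exact h A A.2
  -- multiplication by `P`
  have hmul : ∀ e, Module.finrank K (Bsp K G e) + Module.finrank K
      (Submodule.map ev (Bsp K G (e + k))) ≤ Module.finrank K (Bsp K G (e + k)) := by
    intro e
    have r := LinearMap.finrank_range_add_finrank_ker (ev.domRestrict (Bsp K G (e + k)))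
    have hr : LinearMap.range (ev.domRestrict (Bsp K G (e + k))) =
        Submodule.map ev (Bsp K G (e + k)) := by
      ext z
      simp
    rw [hr] at r
    have hle : Module.finrank K (Bsp K G e) ≤
        Module.finrank K (LinearMap.ker (ev.domRestrict (Bsp K G (e + k)))) := by
      let φ : Bsp K G e →ₗ[K] LinearMap.ker (ev.domRestrict (Bsp K G (e + k))) :=
        LinearMap.codRestrict _ (LinearMap.codRestrict (Bsp K G (e + k))
          ((LinearMap.mulRight K P).comp (Bsp K G e).subtype)
          (fun f => mul_mem K G f.2 hPm)) (by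
            intro f
            rw [LinearMap.mem_ker]
            change (f : G → ℂ) ⟨A0, hA0⟩ * P ⟨A0, hA0⟩ = 0
            rw [hP0, mul_zero])
      refine LinearMap.finrank_le_finrank_of_injective (f := φ) ?_
      refine (injective_iff_map_eq_zero φ).mpr fun f hf => ?_
      have h1 : (f : G → ℂ) * P = 0 := by
        have := congrArg (fun z => ((z : LinearMap.ker (ev.domRestrict (Bsp K G (e + k)))) :
          Bsp K G (e + k)).1) hf
        exact this
      exact Subtype.ext (no_zero K G hdom f.2 hPm h1 hPne)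
    omega
  have hone : 1 ≤ Module.finrank K (Bsp K G 0) := by
    rw [Nat.one_le_iff_ne_zero]
    intro h0
    have h1 : Bsp K G 0 = ⊥ := Submodule.finrank_eq_zero.mp h0
    have h2 : mo G 0 (fun s => s.2.elim0, fun s => s.2.elim0) ∈ Bsp K G 0 :=
      Submodule.subset_span ⟨_, rfl⟩
    rw [h1, Submodule.mem_bot] at h2
    have h3 := congrFun h2 ⟨A0, hA0⟩
    simp [mo] at h3
  have hr : ∀ e, e + k ≤ J * k → (Module.finrank K (Bsp K G e) : ℝ) ≤
      max (1 - η) 0 * Module.finrank K (Bsp K G (e + k)) := by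
    intro e he
    have h1 := hstep (e + k) he
    have h2 : (Module.finrank K (Bsp K G e) : ℝ) + Module.finrank K
      (Submodule.map ev (Bsp K G (e + k))) ≤ Module.finrank K (Bsp K G (e + k)) := by
      exact_mod_cast hmul e
    have h3 : (Module.finrank K (Bsp K G e) : ℝ) ≤ (1 - η) * Module.finrank K (Bsp K G (e + k)) := by
      linarith
    refine h3.trans (mul_le_mul_of_nonneg_right (le_max_left _ _) (Nat.cast_nonneg _))
  have hit : ∀ j, j ≤ J → (1 : ℝ) ≤ max (1 - η) 0 ^ j * Module.finrank K (Bsp K G (j * k)) := by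
    intro j
    induction j with
    | zero =>
      intro _
      rw [pow_zero, one_mul, Nat.zero_mul]
      exact_mod_cast hone
    | succ j ih =>
      intro hj
      refine (ih (by omega)).trans ?_
      rw [pow_succ, mul_assoc]
      refine mul_le_mul_of_nonneg_left ?_ (by positivity)
      have := hr (j * k) (by
        calc j * k + k = (j + 1) * k := by ring
          _ ≤ J * k := Nat.mul_le_mul_right k hj)
      rw [Nat.add_mul, one_mul]
      exact this
  have hfin := hit J le_rfl
  have hle : (Module.finrank K (Bsp K G (J * k)) : ℝ) ≤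
      ((J * k + 1 : ℕ) : ℝ) ^ Fintype.card (ι × d × d) := by
    exact_mod_cast finrank_le K G (J * k)
  have := mul_le_mul_of_nonneg_left hle (show (0 : ℝ) ≤ max (1 - η) 0 ^ J by positivity)
  linarith

end Pool.Agent.MTN.H38
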